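import Pool.Agent.Helper80.SI.StN

set_option autoImplicit false

/-!
# Project SI, module N7: the components of a kernel vector are fixed by Phi
-/

namespace Pool.Agent.Helper93.SI

open Pool.Agent.Helper99.SI Pool.Agent.Helper80.SI Filter Topology

section

variable {n : ℕ} {L : Type} [Ring L] [Algebra ℂ L] [StarRing L] [StarModule ℂ L]

lemma p_mul_right (h1 : StA0) (B : ZGr L) (a k : ℤ) (y z : L) (hz : B.p a z = z) :
    B.p k (y * z) = B.p (k - a) y * z := by
  rw [(h1 L B).1 k y z]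
  rw [finsum_eq_single _ (k - a)]
  · rw [sub_sub_cancel, hz]
  · intro i hi
    have h3 : B.p (k - i) z = 0 := by
      rw [← hz, B.pp, if_neg]
      intro h
      apply hi
      rw [← h]
      ring
    rw [h3, mul_zero]

lemma p_mul_left (h1 : StA0) (B : ZGr L) (a k : ℤ) (y z : L) (hy : B.p a y = y) :
    B.p k (y * z) = y * B.p (k - a) z := by
  rw [(h1 L B).1 k y z]
  rw [finsum_eq_single _ a]
  · rw [hy]
  · intro i hi
    have h3 : B.p i y = 0 := by
      rw [← hy, B.pp, if_neg hi]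
    rw [h3, zero_mul]

lemma p_phi (h1 : StA0) (h3 : StA8) (D : Sys n L) (l : ℤ) (y : L) :
    D.g.p l (D.Phi 1 y) = D.Phi 1 (D.g.p l y) := by
  have hP := fun y : L => (h3 n L D 1 0 y one_ne_zero).1 y
  have hev := (h1 L D.b).2.2.2.2.1
  rw [hP, hP, map_sum]
  refine Finset.sum_congr rfl fun i _ => ?_
  rw [hev, p_mul_right h1 D.g 1 l _ _ (D.gx i)]
  have hs : D.g.p (-1) (star (D.x i)) = star (D.x i) := by
    rw [D.g.st, D.gx]
  rw [p_mul_left h1 D.g (-1) (l - 1) _ _ hs]
  congr 3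
  ring

lemma w_nil (D : Sys n L) : D.w [] = 1 := by
  simp [Sys.w, wd]

lemma p_w (h2 : StA2) (D : Sys n L) (l : ℤ) (μ : W n) :
    D.g.p l (D.w μ) = if l = (μ.length : ℤ) then D.w μ else 0 := by
  have h := h2 n L D l μ []
  rw [w_nil, star_one, mul_one] at h
  rw [h]
  simp

lemma p_star_w (h2 : StA2) (D : Sys n L) (l : ℤ) (ν : W n) :
    D.g.p l (star (D.w ν)) = if l = -(ν.length : ℤ) then star (D.w ν) else 0 := by
  have h := h2 n L D l [] ν
  rw [w_nil, one_mul] at h
  rw [h]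
  simp

lemma p_piT (h1 : StA0) (h2 : StA2) (D : Sys n L) (m : MData n L) (l : ℤ) (i : Idx n m.r)
    (hi : l.natAbs < ilen i) : D.g.p l (m.piT D 1 i) = 0 := by
  have hev := (h1 L D.b).2.2.2.2.1
  rcases i with (ν | ν) | a
  · simp only [MData.piT, ilen] at hi ⊢
    split_ifs
    · rw [Complex.ofReal_one, hev, p_w h2, if_neg]
      intro h
      omega
    · exact map_zero _
  · simp only [MData.piT, ilen] at hi ⊢
    split_ifs
    · rw [p_star_w h2, if_neg]
      intro h
      omega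
    · exact map_zero _
  · simp [ilen] at hi

/-- comp as a sum over a finite set. -/
lemma comp_eq (h1 : StA0) (h2 : StA2) (D : Sys n L) (m : MData n L) (z : Idx n m.r → ℂ) (l : ℤ)
    (T : Finset (Idx n m.r)) (hT : ∀ i, ilen i ≤ l.natAbs → i ∈ T) :
    comp D m z l = ∑ i ∈ T, z i • D.g.p l (m.piT D 1 i) := by
  unfold comp
  apply finsum_eq_sum_of_support_subset
  intro i hi
  rw [Function.mem_support] at hi
  by_contra h
  apply hi
  have : l.natAbs < ilen i := by
    by_contra h'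
    exact h (hT i (not_lt.mp h'))
  rw [p_piT h1 h2 D m l i this, smul_zero]

lemma Fc_band (D : Sys n L) (X0 : Set L) (m : MData n L) (hm : IsModel D X0 m) :
    ∃ c : ℕ, ∀ (t : ℝ) (i i' : Idx n m.r), m.Fc t i i' ≠ 0 →
      ilen i' ≤ ilen i + c ∧ ilen i ≤ ilen i' + c := by
  obtain ⟨c, hc⟩ := hm.band
  refine ⟨c, fun t i i' h => ?_⟩
  unfold MData.Fc at h
  rw [Finsupp.finsetSum_apply] at h
  obtain ⟨j, _, hj⟩ := Finset.exists_ne_zero_of_sum_ne_zero h
  apply hc j i i'
  intro h0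
  apply hj
  rw [Finsupp.smul_apply, h0, smul_zero]

lemma pi_Fc (D : Sys n L) (X0 : Set L) (m : MData n L) (hm : IsModel D X0 m)
    (i : Idx n m.r) : m.piV D 1 (m.Fc 1 i) = D.Phi 1 (m.piT D 1 i) := by
  have h := hm.fpi 1 one_pos (Finsupp.single i 1)
  unfold MData.Fl at h
  rw [Finsupp.linearCombination_single, one_smul] at h
  rw [h]
  unfold MData.piV
  rw [Finsupp.linearCombination_single, one_smul, Complex.ofReal_one]

lemma sum_Fc (h1 : StA0) (h2 : StA2) (h3 : StA8) (D : Sys n L) (X0 : Set L) (m : MData n L)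
    (hm : IsModel D X0 m) (l : ℤ) (T : Finset (Idx n m.r))
    (hT : ∀ i, ilen i ≤ l.natAbs → i ∈ T) (i' : Idx n m.r) :
    ∑ i ∈ T, m.Fc 1 i' i • D.g.p l (m.piT D 1 i) = D.Phi 1 (D.g.p l (m.piT D 1 i')) := by
  rw [← p_phi h1 h3, ← pi_Fc D X0 m hm i']
  unfold MData.piV
  rw [Finsupp.linearCombination_apply, Finsupp.sum, map_sum]
  simp only [map_smul]
  have hz : ∀ i ∉ T, D.g.p l (m.piT D 1 i) = 0 := by
    intro i hi
    apply p_piT h1 h2
    by_contra h'
    exact hi (hT i (not_lt.mp h'))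
  classical
  have e1 : ∑ i ∈ T, m.Fc 1 i' i • D.g.p l (m.piT D 1 i) =
      ∑ i ∈ T ∪ (m.Fc 1 i').support, m.Fc 1 i' i • D.g.p l (m.piT D 1 i) := by
    apply Finset.sum_subset Finset.subset_union_left
    intro i _ hi
    rw [hz i hi, smul_zero]
  rw [e1]
  symm
  apply Finset.sum_subset Finset.subset_union_right
  intro i _ hi
  rw [Finsupp.notMem_support_iff.mp hi, zero_smul]

end

theorem hN7 (h1 : StA0) (h2 : StA2) (h3 : StA8) : StN7 := by
  intro n L _ _ _ _ _ D X0 m z l hm hz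
  obtain ⟨c, hc⟩ := Fc_band D X0 m hm
  set T : Finset (Idx n m.r) := (fin_ilen (n := n) (r := m.r) l.natAbs).toFinset with hTd
  set T' : Finset (Idx n m.r) := (fin_ilen (n := n) (r := m.r) (l.natAbs + c)).toFinset with hTd'
  have hT : ∀ i : Idx n m.r, ilen i ≤ l.natAbs → i ∈ T := by
    intro i hi
    rw [hTd, Set.Finite.mem_toFinset]
    exact hi
  have hT' : ∀ i : Idx n m.r, ilen i ≤ l.natAbs → i ∈ T' := by
    intro i hi
    rw [hTd', Set.Finite.mem_toFinset]
    exact le_trans hi (Nat.le_add_right _ _)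
  constructor
  · have e0 : ∀ i ∈ T, z i = ∑ i' ∈ T', m.Fc 1 i' i * z i' := by
      intro i hi
      rw [hTd, Set.Finite.mem_toFinset] at hi
      have hi' : ilen i ≤ l.natAbs := hi
      have h := hz i
      rw [Complex.ofReal_one, one_mul] at h
      rw [h]
      apply finsum_eq_sum_of_support_subset
      intro i' h'
      rw [Function.mem_support] at h'
      have h4 : m.Fc 1 i' i ≠ 0 := left_ne_zero_of_mul h'
      have h5 := (hc 1 i' i h4).2
      rw [hTd', Finset.mem_coe, Set.Finite.mem_toFinset]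
      show ilen i' ≤ l.natAbs + c
      omega
    have e1 : comp D m z l = ∑ i' ∈ T', z i' • D.Phi 1 (D.g.p l (m.piT D 1 i')) := by
      rw [comp_eq h1 h2 D m z l T hT]
      calc ∑ i ∈ T, z i • D.g.p l (m.piT D 1 i)
          = ∑ i ∈ T, ∑ i' ∈ T', z i' • (m.Fc 1 i' i • D.g.p l (m.piT D 1 i)) := by
            refine Finset.sum_congr rfl fun i hi => ?_
            rw [e0 i hi, Finset.sum_smul]
            refine Finset.sum_congr rfl fun i' _ => ?_
            rw [smul_smul, mul_comm]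
        _ = ∑ i' ∈ T', z i' • ∑ i ∈ T, m.Fc 1 i' i • D.g.p l (m.piT D 1 i) := by
            rw [Finset.sum_comm]
            refine Finset.sum_congr rfl fun i' _ => ?_
            rw [Finset.smul_sum]
        _ = _ := by
            refine Finset.sum_congr rfl fun i' _ => ?_
            rw [sum_Fc h1 h2 h3 D X0 m hm l T hT i']
    have e2 : D.Phi 1 (comp D m z l) = ∑ i' ∈ T', z i' • D.Phi 1 (D.g.p l (m.piT D 1 i')) := by
      rw [comp_eq h1 h2 D m z l T' hT', map_sum]
      refine Finset.sum_congr rfl fun i' _ => ?_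
      rw [map_smul]
    rw [e2, ← e1]
  · rw [comp_eq h1 h2 D m z l T hT, map_sum]
    refine Finset.sum_congr rfl fun i _ => ?_
    rw [map_smul, D.g.pp, if_pos rfl]

end Pool.Agent.Helper93.SI
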