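import Pool.Agent.Helper99.SI.StF

set_option autoImplicit false

/-!
# Project SI, module F8: the edge s = 1
-/

namespace Pool.Agent.Helper93.SI

open Pool.Agent.Helper99.SI

theorem fin_ilen' {n r : ℕ} (K : ℕ) : {i : Idx n r | ilen i ≤ K}.Finite := by
  have h1 : {ν : W n | ν.length ≤ K}.Finite := List.finite_length_le (Fin n) K
  have h2 : {i : Idx n r | ilen i ≤ K} ⊆
      (fun ν : W n => (Sum.inl (Sum.inl ν) : Idx n r)) '' {ν : W n | ν.length ≤ K} ∪
      (fun ν : W n => (Sum.inl (Sum.inr ν) : Idx n r)) '' {ν : W n | ν.length ≤ K} ∪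
      Set.range (fun a : Fin r => (Sum.inr a : Idx n r)) := by
    rintro ((ν | ν) | a) hi
    · exact Or.inl (Or.inl ⟨ν, hi, rfl⟩)
    · exact Or.inl (Or.inr ⟨ν, hi, rfl⟩)
    · exact Or.inr ⟨a, rfl⟩
  exact (((h1.image _).union (h1.image _)).union (Set.finite_range _)).subset h2

lemma powmem {k : ℕ} (hk : 1 ≤ k) {x : ℝ} (hx : x ∈ Set.Ioo (0 : ℝ) 1) :
    x ^ k ∈ Set.Ioo (0 : ℝ) 1 :=
  ⟨pow_pos hx.1 k, pow_lt_one₀ hx.1.le hx.2 (by omega)⟩

lemma cont_zpow (k : ℕ) (j : ℤ) :
    ContinuousOn (fun x : ℝ => ((x ^ k : ℝ) : ℂ) ^ j) (Set.Ioo 0 1) := by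
  apply ContinuousOn.zpow₀
  · exact (Complex.continuous_ofReal.comp (continuous_pow k)).continuousOn
  · intro x hx
    left
    exact_mod_cast (pow_pos hx.1 k).ne'

theorem hF8 (h1 : StA0) (h2 : StF5) : StF8 := by
  classical
  intro n L _ _ _ _ _ D X0 m hm V _ _ A hG
  obtain ⟨v, lam, hv, hbij, huniq, hcont, l, hl⟩ := hG
  refine ⟨(fin_ilen' (n := n) (r := m.r) l).toFinset, fun J0 P hJ => ?_⟩
  have hn1 := P.hn1
  choose kk hk1 hk2 using fun a => hm.lift (v a) (hv a)
  -- continuity of the functionals at sums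
  have hcs : ∀ (a : V) (F : Finset ℤ) (y : ℤ → L), ContinuousOn (fun x : ℝ =>
      lam (x ^ P.n1) a (∑ j ∈ F, ((x ^ P.n1 : ℝ) : ℂ) ^ j • y j)) (Set.Ioo 0 1) := by
    intro a F y
    simp only [map_sum, map_smul, smul_eq_mul]
    apply continuousOn_finset_sum
    intro j _
    apply (cont_zpow P.n1 j).mul
    exact (hcont a (y j)).comp (continuous_pow P.n1).continuousOn fun x hx => powmem hn1 hx
  have hck : ∀ (a : V) (y : L), ContinuousOn (fun x : ℝ => lam (x ^ P.n1) a y)
      (Set.Ioo 0 1) := fun a y =>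
    (hcont a y).comp (continuous_pow P.n1).continuousOn fun x hx => powmem hn1 hx
  obtain ⟨S0, hS0, hS1⟩ := h2 n L D X0 m hm J0 P (Set.Ioo 0 1) (fun _ => 1) (fun x => x)
    continuousOn_const continuousOn_id (by
      intro x hx
      refine ⟨zero_le_one, le_refl _, hx.1, hx.2.le, ?_⟩
      rintro ⟨-, h⟩
      exact absurd h hx.2.ne) V v (fun x a => lam (x ^ P.n1) a)
    (fun x a => ∑ j ∈ m.Z, ((x ^ P.n1 : ℝ) : ℂ) ^ j • kk a j)
    (fun x => Matrix.of fun a b => ((x ^ P.n1 : ℝ) : ℂ) * (A b a : ℂ))
    (by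
      intro x hx a
      refine ⟨hk2 a _ (powmem hn1 hx).1, fun i hi => ?_⟩
      rw [Finsupp.finsetSum_apply] at hi
      obtain ⟨j, _, hj⟩ := Finset.exists_ne_zero_of_sum_ne_zero hi
      apply hk1 a j i
      intro h0
      apply hj
      rw [Finsupp.smul_apply, h0, smul_zero])
    (by
      intro a i
      simp only [Finsupp.finsetSum_apply, Finsupp.smul_apply, smul_eq_mul]
      apply continuousOn_finset_sum
      intro j _
      exact (cont_zpow P.n1 j).mul continuousOn_const)
    (by
      intro x hx a i hi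
      have hi' : ¬ ilen i ≤ l := by
        intro h
        apply hi
        apply hJ
        rw [Set.Finite.mem_toFinset]
        exact h
      have hx' := powmem hn1 hx
      rcases i with (ν | ν) | b
      · simp only [ilen] at hi'
        simp only [MData.piT]
        split_ifs
        · exact (hl _ hx'.1 hx'.2 a ν (by omega)).1
        · exact map_zero _
      · simp only [ilen] at hi'
        simp only [MData.piT]
        split_ifs
        · exact (hl _ hx'.1 hx'.2 a ν (by omega)).2
        · exact map_zero _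
      · exact absurd (Nat.zero_le l) hi')
    (by
      intro a i
      rcases i with (ν | ν) | b
      · simp only [MData.piT]
        by_cases hM : m.M ≤ ν.length
        · simp only [if_pos hM]
          have hev : ∀ x : ℝ, D.b.ev ((x ^ P.n1 : ℝ) : ℂ) (D.w ν) =
              ∑ j ∈ (D.b.fin (D.w ν)).toFinset, ((x ^ P.n1 : ℝ) : ℂ) ^ j • D.b.p j (D.w ν) := by
            intro x
            change ∑ᶠ j : ℤ, ((x ^ P.n1 : ℝ) : ℂ) ^ j • D.b.p j (D.w ν) = _
            apply finsum_eq_sum_of_support_subset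
            intro j hj
            rw [Finset.mem_coe, Set.Finite.mem_toFinset]
            intro h0
            apply hj
            change _ • _ = _
            rw [h0, smul_zero]
          simp only [hev]
          exact hcs a _ _
        · simp only [if_neg hM]
          exact hck a 0
      · simp only [MData.piT]
        exact hck a _
      · simp only [MData.piT]
        exact hcs a _ _)
    (by
      intro x hx
      have hx' := powmem hn1 hx
      have h3 := hbij _ hx'.1 hx'.2
      simpa only [Complex.ofReal_one, one_smul] using h3)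
    (by
      intro x hx b y hy a
      have hx' := powmem hn1 hx
      simp only [Complex.ofReal_one, one_smul] at hy
      exact huniq _ hx'.1 hx'.2 b y hy a)
  refine ⟨S0, hS0, fun u hu => ⟨(hS1 u hu).1, fun S hS => ?_⟩⟩
  rw [(hS1 u hu).2 S hS]
  congr 1
  have h4 : (1 - Matrix.of fun a b => ((u ^ P.n1 : ℝ) : ℂ) * (A b a : ℂ) : Matrix V V ℂ) =
      (Complex.ofRealHom.mapMatrix (1 - (u ^ P.n1) • A)).transpose := by
    ext a b
    simp only [Matrix.sub_apply, Matrix.of_apply, Matrix.transpose_apply,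
      RingHom.mapMatrix_apply, Matrix.map_apply, Matrix.smul_apply, smul_eq_mul,
      Complex.ofRealHom_eq_coe, Matrix.one_apply, Complex.ofReal_sub, Complex.ofReal_mul]
    by_cases hab : a = b
    · simp [hab]
    · simp [hab, Ne.symm hab]
  rw [h4, Matrix.det_transpose, ← RingHom.map_det]
  rfl

end Pool.Agent.Helper93.SI
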